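import Pool.Agent.Run7.h723.OG.Iface2

/-!
# N7T: seven vertices, twins of degree two in the graph and in the complement
-/

set_option autoImplicit false

namespace Pool.Agent.Run7.h232.OG

open Pool.H723.OG

lemma mem_lev {V : Type} [Fintype V] (G : SimpleGraph V) (D : Finset V) (j : ℕ) (w : V) :
    w ∈ lev G D j ↔ w ∉ D ∧ nb G D w = j := by
  unfold lev
  simp only [Finset.mem_filter, Finset.mem_univ, true_and]

section

variable {V : Type} [Fintype V] [DecidableEq V] {G : SimpleGraph V}

lemma exists_out (h : Fintype.card V = 7) (S : Finset V) (hS : S.card ≤ 6) : ∃ w, w ∉ S := by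
  by_contra hcon
  push Not at hcon
  have : S = Finset.univ := Finset.eq_univ_of_forall hcon
  rw [this, Finset.card_univ, h] at hS
  omega

/-- vertices with many neighbours are not vertices with the neighbourhood `{a, b}` -/
lemma ne_of_many (h : Fintype.card V = 7) {x u a b p q : V} (hx : ∀ v, G.Adj x v ↔ v = a ∨ v = b)
    (hu : ∀ w, w ≠ u → w ≠ p → w ≠ q → G.Adj u w) : x ≠ u := by
  rintro rfl
  obtain ⟨w, hw⟩ := exists_out h {x, p, q, a, b} (Finset.card_le_five.trans (by norm_num))
  simp only [Finset.mem_insert, Finset.mem_singleton, not_or] at hw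
  obtain ⟨h1, h2, h3, h4, h5⟩ := hw
  rcases (hx w).1 (hu w h1 h2 h3) with rfl | rfl
  · exact h4 rfl
  · exact h5 rfl

lemma dg_pos (h : Fintype.card V = 7) (hG : G.Connected) (p : V) : 1 ≤ dg G p := by
  classical
  obtain ⟨w, hw⟩ := exists_out h {p} (by simp)
  have hpw : p ≠ w := fun h => hw (by rw [h]; exact Finset.mem_singleton_self w)
  have : ∃ v, G.Adj p v := by
    have : Nontrivial V := ⟨p, w, hpw⟩
    exact hG.preconnected.exists_adj_of_nontrivial p
  obtain ⟨v, hv⟩ := this
  unfold dg
  exact Finset.card_pos.2 ⟨v, Finset.mem_filter.2 ⟨Finset.mem_univ _, hv.symm⟩⟩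

/-- all neighbours of `p` are outside a set with six elements -/
lemma dg_le_one (h : Fintype.card V = 7) (S : Finset V) (hS : S.card = 6) (p : V)
    (hp : ∀ w ∈ S, ¬ G.Adj w p) : dg G p ≤ 1 := by
  classical
  unfold dg
  have h1 : Finset.univ.filter (fun u => G.Adj u p) ⊆ Sᶜ := by
    intro w hw
    rw [Finset.mem_filter] at hw
    rw [Finset.mem_compl]
    exact fun hS => hp w hS hw.2
  refine (Finset.card_le_card h1).trans ?_
  rw [Finset.card_compl, h, hS]

end

theorem t_N7T (hCOST : S_COST) (hLOWB : S_LOWB) : S_N7T := by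
  classical
  intro V _ _ G h7 hG hGc hCC h1 h2
  obtain ⟨x, y, a, b, hxy, hab, hadj, hx, hy⟩ := h1
  obtain ⟨u, v, p, q, huv, hpq, hadj', hu, hv⟩ := h2
  have hu' : ∀ w, G.Adj u w ↔ w ≠ u ∧ w ≠ p ∧ w ≠ q := by
    intro w
    have h := hu w
    rw [SimpleGraph.compl_adj] at h
    constructor
    · intro hw
      refine ⟨hw.ne', ?_, ?_⟩
      · intro hp
        exact (h.2 (Or.inl hp)).2 hw
      · intro hq
        exact (h.2 (Or.inr hq)).2 hw
    · rintro ⟨h1, h2, h3⟩
      by_contra hcon
      rcases h.1 ⟨h1.symm, hcon⟩ with h4 | h4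
      · exact h2 h4
      · exact h3 h4
  have hv' : ∀ w, G.Adj v w ↔ w ≠ v ∧ w ≠ p ∧ w ≠ q := by
    intro w
    have h := hv w
    rw [SimpleGraph.compl_adj] at h
    constructor
    · intro hw
      refine ⟨hw.ne', ?_, ?_⟩
      · intro hp
        exact (h.2 (Or.inl hp)).2 hw
      · intro hq
        exact (h.2 (Or.inr hq)).2 hw
    · rintro ⟨h1, h2, h3⟩
      by_contra hcon
      rcases h.1 ⟨h1.symm, hcon⟩ with h4 | h4
      · exact h2 h4
      · exact h3 h4
  have hup : u ≠ p := fun h => (hu p).2 (Or.inl rfl) |>.ne h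
  have huq : u ≠ q := fun h => (hu q).2 (Or.inr rfl) |>.ne h
  have hvp : v ≠ p := fun h => (hv p).2 (Or.inl rfl) |>.ne h
  have hvq : v ≠ q := fun h => (hv q).2 (Or.inr rfl) |>.ne h
  have hxa : x ≠ a := ((hx a).2 (Or.inl rfl)).ne
  have hxb : x ≠ b := ((hx b).2 (Or.inr rfl)).ne
  have hya : y ≠ a := ((hy a).2 (Or.inl rfl)).ne
  have hyb : y ≠ b := ((hy b).2 (Or.inr rfl)).ne
  have hxu : x ≠ u := ne_of_many h7 hx (fun w h1 h2 h3 => (hu' w).2 ⟨h1, h2, h3⟩)
  have hxv : x ≠ v := ne_of_many h7 hx (fun w h1 h2 h3 => (hv' w).2 ⟨h1, h2, h3⟩)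
  have hyu : y ≠ u := ne_of_many h7 hy (fun w h1 h2 h3 => (hu' w).2 ⟨h1, h2, h3⟩)
  have hyv : y ≠ v := ne_of_many h7 hy (fun w h1 h2 h3 => (hv' w).2 ⟨h1, h2, h3⟩)
  have hpq' : ¬ G.Adj p q := by
    rw [SimpleGraph.compl_adj] at hadj'
    exact hadj'.2
  by_cases hc : x = p ∨ x = q
  · -- the second case
    have hux : ¬ G.Adj u x := fun h => by
      have := (hu' x).1 h
      rcases hc with h | h
      · exact this.2.1 h
      · exact this.2.2 h
    have hvx : ¬ G.Adj v x := fun h => by
      have := (hv' x).1 h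
      rcases hc with h | h
      · exact this.2.1 h
      · exact this.2.2 h
    have hua : u ≠ a := fun h => hux ((hx u).2 (Or.inl h)).symm
    have hub : u ≠ b := fun h => hux ((hx u).2 (Or.inr h)).symm
    have hva : v ≠ a := fun h => hvx ((hx v).2 (Or.inl h)).symm
    have hvb : v ≠ b := fun h => hvx ((hx v).2 (Or.inr h)).symm
    have huy : ¬ G.Adj u y := fun h => by
      rcases (hy u).1 h.symm with h | h
      · exact hua h
      · exact hub h
    have hyc : y = p ∨ y = q := by
      by_contra hcon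
      push Not at hcon
      exact huy ((hu' y).2 ⟨hyu, hcon.1, hcon.2⟩)
    have hpq2 : ∀ w, w ≠ x → w ≠ y → w ≠ p ∧ w ≠ q := by
      intro w hw1 hw2
      rcases hc with h1 | h1 <;> rcases hyc with h2 | h2
      · exact absurd (h1.trans h2.symm) hxy
      · exact ⟨fun h => hw1 (h.trans h1.symm), fun h => hw2 (h.trans h2.symm)⟩
      · exact ⟨fun h => hw2 (h.trans h2.symm), fun h => hw1 (h.trans h1.symm)⟩
      · exact absurd (h1.trans h2.symm) hxy
    have hua' : G.Adj u a := (hu' a).2 ⟨hua.symm, hpq2 a hxa.symm hya.symm⟩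
    have hub' : G.Adj u b := (hu' b).2 ⟨hub.symm, hpq2 b hxb.symm hyb.symm⟩
    have hva' : G.Adj v a := (hv' a).2 ⟨hva.symm, hpq2 a hxa.symm hya.symm⟩
    have hvb' : G.Adj v b := (hv' b).2 ⟨hvb.symm, hpq2 b hxb.symm hyb.symm⟩
    have hnb : ∀ w, G.Adj w a → G.Adj w b → nb G {a, b} w = 2 := by
      intro w hwa hwb
      unfold nb
      have : ({a, b} : Finset V).filter (fun u => G.Adj u w) = {a, b} := by
        rw [Finset.filter_eq_self]
        intro z hz
        rw [Finset.mem_insert, Finset.mem_singleton] at hz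
        rcases hz with rfl | rfl
        · exact hwa.symm
        · exact hwb.symm
      rw [this, Finset.card_pair hab]
    have hS : ({a, b, x, y, u, v} : Finset V).card = 6 := by
      rw [Finset.card_insert_of_notMem, Finset.card_insert_of_notMem, Finset.card_insert_of_notMem,
        Finset.card_insert_of_notMem, Finset.card_insert_of_notMem, Finset.card_singleton] <;>
      simp only [Finset.mem_insert, Finset.mem_singleton, not_or] <;>
      simp [hab, hxa.symm, hya.symm, hua.symm, hva.symm, hxb.symm, hyb.symm, hub.symm, hvb.symm, hxy, hxu, hxv,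
        hyu, hyv, huv]
    have hlev : lev G {a, b} 0 ∪ lev G {a, b} 1 ⊆ ({a, b, x, y, u, v} : Finset V)ᶜ := by
      intro w hw
      have hw' : w ∉ ({a, b} : Finset V) ∧ nb G {a, b} w ≠ 2 := by
        rcases Finset.mem_union.1 hw with h | h
        · have := (mem_lev _ _ _ _).1 h
          exact ⟨this.1, by rw [this.2]; norm_num⟩
        · have := (mem_lev _ _ _ _).1 h
          exact ⟨this.1, by rw [this.2]; norm_num⟩
      rw [Finset.mem_compl]
      simp only [Finset.mem_insert, Finset.mem_singleton, not_or] at hw' ⊢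
      refine ⟨hw'.1.1, hw'.1.2, ?_, ?_, ?_, ?_⟩
      · rintro rfl
        exact hw'.2 (hnb w ((hx a).2 (Or.inl rfl)) ((hx b).2 (Or.inr rfl)))
      · rintro rfl
        exact hw'.2 (hnb w ((hy a).2 (Or.inl rfl)) ((hy b).2 (Or.inr rfl)))
      · rintro rfl
        exact hw'.2 (hnb w hua' hub')
      · rintro rfl
        exact hw'.2 (hnb w hva' hvb')
    have hdis : Disjoint (lev G {a, b} 0) (lev G {a, b} 1) := by
      rw [Finset.disjoint_left]
      intro w h1 h2
      have e1 := ((mem_lev _ _ _ _).1 h1).2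
      have e2 := ((mem_lev _ _ _ _).1 h2).2
      rw [e1] at e2
      exact absurd e2 (by norm_num)
    have hcard : (lev G {a, b} 0).card + (lev G {a, b} 1).card ≤ 1 := by
      rw [← Finset.card_union_of_disjoint hdis]
      refine (Finset.card_le_card hlev).trans ?_
      rw [Finset.card_compl, h7, hS]
    apply hCOST V G {a, b} 3
    unfold cost2
    rw [Finset.card_pair hab]
    omega
  · -- the first case
    push Not at hc
    have hux : G.Adj u x := (hu' x).2 ⟨hxu, hc.1, hc.2⟩
    have hvx : G.Adj v x := (hv' x).2 ⟨hxv, hc.1, hc.2⟩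
    have huab := (hx u).1 hux.symm
    have hvab := (hx v).1 hvx.symm
    have hset : ∀ w, (w = a ∨ w = b) ↔ (w = u ∨ w = v) := by
      intro w
      rcases huab with h1 | h1 <;> rcases hvab with h2 | h2
      · exact absurd (h1.trans h2.symm) huv
      · rw [h1, h2]
      · rw [h1, h2]
        exact or_comm
      · exact absurd (h1.trans h2.symm) huv
    have hyu' : G.Adj y u := (hy u).2 ((hset u).2 (Or.inl rfl))
    have hyv' : G.Adj y v := (hy v).2 ((hset v).2 (Or.inr rfl))
    have hyp : y ≠ p ∧ y ≠ q := ((hu' y).1 hyu'.symm).2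
    have hS : ({u, v, x, y, p, q} : Finset V).card = 6 := by
      rw [Finset.card_insert_of_notMem, Finset.card_insert_of_notMem, Finset.card_insert_of_notMem,
        Finset.card_insert_of_notMem, Finset.card_insert_of_notMem, Finset.card_singleton] <;>
      simp only [Finset.mem_insert, Finset.mem_singleton, not_or] <;>
      simp [huv, hxu.symm, hyu.symm, hup, huq, hxv.symm, hyv.symm, hvp, hvq, hxy, hc.1, hc.2, hyp.1, hyp.2, hpq]
    have hnx : ∀ w, w ≠ u → w ≠ v → ¬ G.Adj x w := by
      intro w h1 h2 h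
      rcases (hset w).1 ((hx w).1 h) with h3 | h3
      · exact h1 h3
      · exact h2 h3
    have hny : ∀ w, w ≠ u → w ≠ v → ¬ G.Adj y w := by
      intro w h1 h2 h
      rcases (hset w).1 ((hy w).1 h) with h3 | h3
      · exact h1 h3
      · exact h2 h3
    have hdp : dg G p ≤ 1 := by
      refine dg_le_one h7 _ hS p ?_
      intro w hw
      simp only [Finset.mem_insert, Finset.mem_singleton] at hw
      rcases hw with rfl | rfl | rfl | rfl | rfl | rfl
      · exact fun h => ((hu' p).1 h).2.1 rfl
      · exact fun h => ((hv' p).1 h).2.1 rfl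
      · exact hnx p hup.symm hvp.symm
      · exact hny p hup.symm hvp.symm
      · exact G.loopless.irrefl _
      · exact fun h => hpq' h.symm
    have hdq : dg G q ≤ 1 := by
      refine dg_le_one h7 _ hS q ?_
      intro w hw
      simp only [Finset.mem_insert, Finset.mem_singleton] at hw
      rcases hw with rfl | rfl | rfl | rfl | rfl | rfl
      · exact fun h => ((hu' q).1 h).2.2 rfl
      · exact fun h => ((hv' q).1 h).2.2 rfl
      · exact hnx q huq.symm hvq.symm
      · exact hny q huq.symm hvq.symm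
      · exact hpq'
      · exact G.loopless.irrefl _
    have e1 := dg_pos h7 hG p
    have e2 := dg_pos h7 hG q
    exact hLOWB V G (by omega) hG hGc hCC p q hpq (by omega) (by omega)

end Pool.Agent.Run7.h232.OG
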